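import Mathlib

/-!
# MP_75e24b_ag : a squarefree monomial ideal of fiber type with a non-squarefree conductor

Let `I = (zf, zg, bdf, bdg, bef, deg)` in `K[z, b, d, e, f, g]` (variables numbered `0, …, 5`).
We show that `J = L + (y_0 y_3 - y_1 y_2)`, so `I` is of fiber type, and that the conductor
`L : J` contains `e²` but not `e`.

* `reduce`, `red_unique`, `conn`: a normal form for the monomials of `T / N`, `N = L + (y_0y_3 - y_1y_2)`;
* `sig_phi`, `J_le_N`: hence `J ≤ N`;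
* `e2q`: explicit certificate for `e² (y_0 y_3 - y_1 y_2) ∈ L`;
* `psi`: a linear functional vanishing on `L` and not at `e (y_0 y_3 - y_1 y_2)`.
-/

namespace Pool.Agent.Results.MP_75e24b_ag.Conductor

section Core
variable {A : Type} [CommRing A] (Z B D E F G Y0 Y1 Y2 Y3 Y4 Y5 : A)

/-- reduced exponent vectors -/
def Red (z b d f a1 a2 a3 a4 a5 : ℕ) : Prop :=
  (z = 0 ∨ (a2 = 0 ∧ a3 = 0 ∧ a4 = 0 ∧ a5 = 0)) ∧ (d = 0 ∨ a4 = 0) ∧ (b = 0 ∨ a5 = 0) ∧
  (f = 0 ∨ (a1 = 0 ∧ a3 = 0)) ∧ (a1 = 0 ∨ a2 = 0)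

/-- monomial -/
def mon (z b d e f g a0 a1 a2 a3 a4 a5 : ℕ) : A :=
  Z^z * B^b * D^d * E^e * F^f * G^g * Y0^a0 * Y1^a1 * Y2^a2 * Y3^a3 * Y4^a4 * Y5^a5

/-- same image -/
def Same (z b d e f g a0 a1 a2 a3 a4 a5 z' b' d' e' f' g' a0' a1' a2' a3' a4' a5' : ℕ) : Prop :=
  z + a0 + a1 = z' + a0' + a1' ∧ b + a2 + a3 + a4 = b' + a2' + a3' + a4' ∧
  d + a2 + a3 + a5 = d' + a2' + a3' + a5' ∧ e + a4 + a5 = e' + a4' + a5' ∧
  f + a0 + a2 + a4 = f' + a0' + a2' + a4' ∧ g + a1 + a3 + a5 = g' + a1' + a3' + a5' ∧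
  a0 + a1 + a2 + a3 + a4 + a5 = a0' + a1' + a2' + a3' + a4' + a5'

lemma red_unique (z b d e f g a0 a1 a2 a3 a4 a5 z' b' d' e' f' g' a0' a1' a2' a3' a4' a5' : ℕ)
    (h : Red z b d f a1 a2 a3 a4 a5) (h' : Red z' b' d' f' a1' a2' a3' a4' a5')
    (hs : Same z b d e f g a0 a1 a2 a3 a4 a5 z' b' d' e' f' g' a0' a1' a2' a3' a4' a5') :
    z = z' ∧ b = b' ∧ d = d' ∧ e = e' ∧ f = f' ∧ g = g' ∧ a0 = a0' ∧ a1 = a1' ∧ a2 = a2' ∧
      a3 = a3' ∧ a4 = a4' ∧ a5 = a5' := by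
  obtain ⟨c1, c2, c3, c4, c5⟩ := h
  obtain ⟨c1', c2', c3', c4', c5'⟩ := h'
  obtain ⟨s1, s2, s3, s4, s5, s6, s7⟩ := hs
  have k : a0 + a1 = a0' + a1' := by rcases c1 with c1 | c1 <;> rcases c1' with c1' | c1' <;> omega
  have p : a4 = a4' := by rcases c2 with c2 | c2 <;> rcases c2' with c2' | c2' <;> omega
  have q : a5 = a5' := by rcases c3 with c3 | c3 <;> rcases c3' with c3' | c3' <;> omega
  have r : a0 + a2 = a0' + a2' := by rcases c4 with c4 | c4 <;> rcases c4' with c4' | c4' <;> omega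
  have t : a0 = a0' := by rcases c5 with c5 | c5 <;> rcases c5' with c5' | c5' <;> omega
  omega

variable (r1 : Z * Y2 = B * D * Y0) (r2 : Z * Y3 = B * D * Y1) (r3 : Z * Y4 = B * E * Y0)
  (r4 : Z * Y5 = D * E * Y1) (r5 : F * Y1 = G * Y0) (r6 : F * Y3 = G * Y2) (r7 : D * Y4 = E * Y2)
  (r8 : B * Y5 = E * Y3) (r9 : Y0 * Y3 = Y1 * Y2)

include r1 r2 r3 r4 r5 r6 r7 r8 r9 in
lemma reduce (μ : ℕ) : ∀ z b d e f g a0 a1 a2 a3 a4 a5 : ℕ,
    10 * z + 10 * f + a1 + a2 + a3 + 2 * a4 + 2 * a5 ≤ μ →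
    ∃ z' b' d' e' f' g' a0' a1' a2' a3' a4' a5', Red z' b' d' f' a1' a2' a3' a4' a5' ∧
      Same z b d e f g a0 a1 a2 a3 a4 a5 z' b' d' e' f' g' a0' a1' a2' a3' a4' a5' ∧
      mon Z B D E F G Y0 Y1 Y2 Y3 Y4 Y5 z b d e f g a0 a1 a2 a3 a4 a5 =
      mon Z B D E F G Y0 Y1 Y2 Y3 Y4 Y5 z' b' d' e' f' g' a0' a1' a2' a3' a4' a5' := by
  induction μ with
  | zero =>
    intro z b d e f g a0 a1 a2 a3 a4 a5 h
    refine ⟨z, b, d, e, f, g, a0, a1, a2, a3, a4, a5, ?_, ?_, rfl⟩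
    · unfold Red; omega
    · unfold Same; omega
  | succ μ ih =>
    intro z b d e f g a0 a1 a2 a3 a4 a5 h
    by_cases hR : Red z b d f a1 a2 a3 a4 a5
    · exact ⟨z, b, d, e, f, g, a0, a1, a2, a3, a4, a5, hR, by unfold Same; omega, rfl⟩
    -- helper to finish from a move
    have fin : ∀ z1 b1 d1 e1 f1 g1 c0 c1 c2 c3 c4 c5 : ℕ,
        10 * z1 + 10 * f1 + c1 + c2 + c3 + 2 * c4 + 2 * c5 ≤ μ →
        Same z b d e f g a0 a1 a2 a3 a4 a5 z1 b1 d1 e1 f1 g1 c0 c1 c2 c3 c4 c5 →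
        mon Z B D E F G Y0 Y1 Y2 Y3 Y4 Y5 z b d e f g a0 a1 a2 a3 a4 a5 =
          mon Z B D E F G Y0 Y1 Y2 Y3 Y4 Y5 z1 b1 d1 e1 f1 g1 c0 c1 c2 c3 c4 c5 →
        ∃ z' b' d' e' f' g' a0' a1' a2' a3' a4' a5', Red z' b' d' f' a1' a2' a3' a4' a5' ∧
          Same z b d e f g a0 a1 a2 a3 a4 a5 z' b' d' e' f' g' a0' a1' a2' a3' a4' a5' ∧
          mon Z B D E F G Y0 Y1 Y2 Y3 Y4 Y5 z b d e f g a0 a1 a2 a3 a4 a5 =
          mon Z B D E F G Y0 Y1 Y2 Y3 Y4 Y5 z' b' d' e' f' g' a0' a1' a2' a3' a4' a5' := by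
      intro z1 b1 d1 e1 f1 g1 c0 c1 c2 c3 c4 c5 hm hs he
      obtain ⟨z', b', d', e', f', g', a0', a1', a2', a3', a4', a5', hR', hS', hE'⟩ :=
        ih z1 b1 d1 e1 f1 g1 c0 c1 c2 c3 c4 c5 hm
      refine ⟨z', b', d', e', f', g', a0', a1', a2', a3', a4', a5', hR', ?_, he.trans hE'⟩
      unfold Same at *; omega
    by_cases m1 : 1 ≤ z ∧ 1 ≤ a2
    · obtain ⟨z, rfl⟩ : ∃ z1, z = z1 + 1 := ⟨z - 1, by omega⟩
      obtain ⟨a2, rfl⟩ : ∃ z1, a2 = z1 + 1 := ⟨a2 - 1, by omega⟩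
      refine fin z (b+1) (d+1) e f g (a0+1) a1 a2 a3 a4 a5 (by omega) (by unfold Same; omega) ?_
      unfold mon
      linear_combination (Z^z * B^b * D^d * E^e * F^f * G^g * Y0^a0 * Y1^a1 * Y2^a2 * Y3^a3 * Y4^a4 * Y5^a5) * r1
    by_cases m2 : 1 ≤ z ∧ 1 ≤ a3
    · obtain ⟨z, rfl⟩ : ∃ z1, z = z1 + 1 := ⟨z - 1, by omega⟩
      obtain ⟨a3, rfl⟩ : ∃ z1, a3 = z1 + 1 := ⟨a3 - 1, by omega⟩
      refine fin z (b+1) (d+1) e f g a0 (a1+1) a2 a3 a4 a5 (by omega) (by unfold Same; omega) ?_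
      unfold mon
      linear_combination (Z^z * B^b * D^d * E^e * F^f * G^g * Y0^a0 * Y1^a1 * Y2^a2 * Y3^a3 * Y4^a4 * Y5^a5) * r2
    by_cases m3 : 1 ≤ z ∧ 1 ≤ a4
    · obtain ⟨z, rfl⟩ : ∃ z1, z = z1 + 1 := ⟨z - 1, by omega⟩
      obtain ⟨a4, rfl⟩ : ∃ z1, a4 = z1 + 1 := ⟨a4 - 1, by omega⟩
      refine fin z (b+1) d (e+1) f g (a0+1) a1 a2 a3 a4 a5 (by omega) (by unfold Same; omega) ?_
      unfold mon
      linear_combination (Z^z * B^b * D^d * E^e * F^f * G^g * Y0^a0 * Y1^a1 * Y2^a2 * Y3^a3 * Y4^a4 * Y5^a5) * r3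
    by_cases m4 : 1 ≤ z ∧ 1 ≤ a5
    · obtain ⟨z, rfl⟩ : ∃ z1, z = z1 + 1 := ⟨z - 1, by omega⟩
      obtain ⟨a5, rfl⟩ : ∃ z1, a5 = z1 + 1 := ⟨a5 - 1, by omega⟩
      refine fin z b (d+1) (e+1) f g a0 (a1+1) a2 a3 a4 a5 (by omega) (by unfold Same; omega) ?_
      unfold mon
      linear_combination (Z^z * B^b * D^d * E^e * F^f * G^g * Y0^a0 * Y1^a1 * Y2^a2 * Y3^a3 * Y4^a4 * Y5^a5) * r4
    by_cases m5 : 1 ≤ f ∧ 1 ≤ a1
    · obtain ⟨f, rfl⟩ : ∃ z1, f = z1 + 1 := ⟨f - 1, by omega⟩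
      obtain ⟨a1, rfl⟩ : ∃ z1, a1 = z1 + 1 := ⟨a1 - 1, by omega⟩
      refine fin z b d e f (g+1) (a0+1) a1 a2 a3 a4 a5 (by omega) (by unfold Same; omega) ?_
      unfold mon
      linear_combination (Z^z * B^b * D^d * E^e * F^f * G^g * Y0^a0 * Y1^a1 * Y2^a2 * Y3^a3 * Y4^a4 * Y5^a5) * r5
    by_cases m6 : 1 ≤ f ∧ 1 ≤ a3
    · obtain ⟨f, rfl⟩ : ∃ z1, f = z1 + 1 := ⟨f - 1, by omega⟩
      obtain ⟨a3, rfl⟩ : ∃ z1, a3 = z1 + 1 := ⟨a3 - 1, by omega⟩
      refine fin z b d e f (g+1) a0 a1 (a2+1) a3 a4 a5 (by omega) (by unfold Same; omega) ?_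
      unfold mon
      linear_combination (Z^z * B^b * D^d * E^e * F^f * G^g * Y0^a0 * Y1^a1 * Y2^a2 * Y3^a3 * Y4^a4 * Y5^a5) * r6
    by_cases m7 : 1 ≤ d ∧ 1 ≤ a4
    · obtain ⟨d, rfl⟩ : ∃ z1, d = z1 + 1 := ⟨d - 1, by omega⟩
      obtain ⟨a4, rfl⟩ : ∃ z1, a4 = z1 + 1 := ⟨a4 - 1, by omega⟩
      refine fin z b d (e+1) f g a0 a1 (a2+1) a3 a4 a5 (by omega) (by unfold Same; omega) ?_
      unfold mon
      linear_combination (Z^z * B^b * D^d * E^e * F^f * G^g * Y0^a0 * Y1^a1 * Y2^a2 * Y3^a3 * Y4^a4 * Y5^a5) * r7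
    by_cases m8 : 1 ≤ b ∧ 1 ≤ a5
    · obtain ⟨b, rfl⟩ : ∃ z1, b = z1 + 1 := ⟨b - 1, by omega⟩
      obtain ⟨a5, rfl⟩ : ∃ z1, a5 = z1 + 1 := ⟨a5 - 1, by omega⟩
      refine fin z b d (e+1) f g a0 a1 a2 (a3+1) a4 a5 (by omega) (by unfold Same; omega) ?_
      unfold mon
      linear_combination (Z^z * B^b * D^d * E^e * F^f * G^g * Y0^a0 * Y1^a1 * Y2^a2 * Y3^a3 * Y4^a4 * Y5^a5) * r8
    by_cases m9 : 1 ≤ a1 ∧ 1 ≤ a2
    · obtain ⟨a1, rfl⟩ : ∃ z1, a1 = z1 + 1 := ⟨a1 - 1, by omega⟩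
      obtain ⟨a2, rfl⟩ : ∃ z1, a2 = z1 + 1 := ⟨a2 - 1, by omega⟩
      refine fin z b d e f g (a0+1) a1 a2 (a3+1) a4 a5 (by omega) (by unfold Same; omega) ?_
      unfold mon
      linear_combination -(Z^z * B^b * D^d * E^e * F^f * G^g * Y0^a0 * Y1^a1 * Y2^a2 * Y3^a3 * Y4^a4 * Y5^a5) * r9
    exfalso
    apply hR
    unfold Red
    omega

include r1 r2 r3 r4 r5 r6 r7 r8 r9 in
lemma conn (z b d e f g a0 a1 a2 a3 a4 a5 z' b' d' e' f' g' a0' a1' a2' a3' a4' a5' : ℕ)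
    (hs : Same z b d e f g a0 a1 a2 a3 a4 a5 z' b' d' e' f' g' a0' a1' a2' a3' a4' a5') :
    mon Z B D E F G Y0 Y1 Y2 Y3 Y4 Y5 z b d e f g a0 a1 a2 a3 a4 a5 =
      mon Z B D E F G Y0 Y1 Y2 Y3 Y4 Y5 z' b' d' e' f' g' a0' a1' a2' a3' a4' a5' := by
  obtain ⟨x0, x1, x2, x3, x4, x5, x6, x7, x8, x9, x10, x11, hR, hS, hE⟩ :=
    reduce Z B D E F G Y0 Y1 Y2 Y3 Y4 Y5 r1 r2 r3 r4 r5 r6 r7 r8 r9 _ z b d e f g a0 a1 a2 a3 a4 a5 le_rfl
  obtain ⟨y0, y1, y2, y3, y4, y5, y6, y7, y8, y9, y10, y11, hR', hS', hE'⟩ :=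
    reduce Z B D E F G Y0 Y1 Y2 Y3 Y4 Y5 r1 r2 r3 r4 r5 r6 r7 r8 r9 _ z' b' d' e' f' g' a0' a1' a2' a3' a4' a5' le_rfl
  have hSS : Same x0 x1 x2 x3 x4 x5 x6 x7 x8 x9 x10 x11 y0 y1 y2 y3 y4 y5 y6 y7 y8 y9 y10 y11 := by
    unfold Same at *; omega
  obtain ⟨rfl, rfl, rfl, rfl, rfl, rfl, rfl, rfl, rfl, rfl, rfl, rfl⟩ := red_unique _ _ _ _ _ _ _ _ _ _ _ _ _ _ _ _ _ _ _ _ _ _ _ _ hR hR' hSS
  rw [hE, hE']

include r1 r2 r3 r4 r5 r6 r7 r8 r9 in
lemma conn2 (z b d e f g a0 a1 a2 a3 a4 a5 z' b' d' e' f' g' a0' a1' a2' a3' a4' a5' : ℕ)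
    (hs : Same z b d e f g a0 a1 a2 a3 a4 a5 z' b' d' e' f' g' a0' a1' a2' a3' a4' a5') :
    (Z^z * B^b * D^d * E^e * F^f * G^g) * (Y0^a0 * Y1^a1 * Y2^a2 * Y3^a3 * Y4^a4 * Y5^a5) =
    (Z^z' * B^b' * D^d' * E^e' * F^f' * G^g') * (Y0^a0' * Y1^a1' * Y2^a2' * Y3^a3' * Y4^a4' * Y5^a5') := by
  have key := conn Z B D E F G Y0 Y1 Y2 Y3 Y4 Y5 r1 r2 r3 r4 r5 r6 r7 r8 r9 _ _ _ _ _ _ _ _ _ _ _ _ _ _ _ _ _ _ _ _ _ _ _ _ hs
  unfold mon at key
  simp only [mul_assoc] at key ⊢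
  exact key

end Core

open MvPolynomial


section Defs
variable {K : Type} [Field K] {n m : ℕ}

/-- `T = R[y_1, …, y_m]`, `R = K[x_1, …, x_n]` -/
abbrev Tg (K : Type) [Field K] (n m : ℕ) : Type := MvPolynomial (Fin m) (MvPolynomial (Fin n) K)

/-- `φ : T → R[t]`, `y_j ↦ f_j t` -/
noncomputable def phi (f : Fin m → MvPolynomial (Fin n) K) :
    Tg K n m →ₐ[MvPolynomial (Fin n) K] Polynomial (MvPolynomial (Fin n) K) :=
  aeval (fun j => Polynomial.C (f j) * Polynomial.X)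

/-- the defining ideal `J` of the Rees algebra -/
noncomputable def J (f : Fin m → MvPolynomial (Fin n) K) : Ideal (Tg K n m) := RingHom.ker (phi f)

/-- the ideal `L` generated by the linear relations `∑ a_i y_i` with `∑ a_i f_i = 0` -/
noncomputable def L (f : Fin m → MvPolynomial (Fin n) K) : Ideal (Tg K n m) :=
  Ideal.span {p | ∃ a : Fin m → MvPolynomial (Fin n) K, ∑ i, a i * f i = 0 ∧ p = ∑ i, C (a i) * X i}

/-- `φ' : K[y_1, …, y_m] → R[t]`, `y_j ↦ f_j t`, with image `K[f_1 t, …, f_m t]` -/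
noncomputable def phi' (f : Fin m → MvPolynomial (Fin n) K) :
    MvPolynomial (Fin m) K →ₐ[K] Polynomial (MvPolynomial (Fin n) K) :=
  aeval (fun j => Polynomial.C (f j) * Polynomial.X)

/-- the kernel `H` of `φ'` -/
noncomputable def H (f : Fin m → MvPolynomial (Fin n) K) : Ideal (MvPolynomial (Fin m) K) :=
  RingHom.ker (phi' f)

/-- the inclusion `K[y] → T` -/
noncomputable def incl : MvPolynomial (Fin m) K →+* Tg K n m := MvPolynomial.map C

/-- `HT` -/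
noncomputable def HT (f : Fin m → MvPolynomial (Fin n) K) : Ideal (Tg K n m) := (H f).map incl

/-- fiber type: `J = L + HT` -/
def IsFiberType (f : Fin m → MvPolynomial (Fin n) K) : Prop := J f = L f ⊔ HT f

/-- the conductor `C(I) = L :_R J` -/
noncomputable def conductor (f : Fin m → MvPolynomial (Fin n) K) : Ideal (MvPolynomial (Fin n) K) where
  carrier := {r | ∀ p ∈ J f, C r * p ∈ L f}
  add_mem' := fun {a b} ha hb p hp => by
    rw [map_add, add_mul]; exact add_mem (ha p hp) (hb p hp)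
  zero_mem' := fun p _ => by rw [map_zero, zero_mul]; exact zero_mem _
  smul_mem' := fun c x hx p hp => by
    rw [smul_eq_mul, map_mul, mul_assoc]; exact Ideal.mul_mem_left _ _ (hx p hp)

/-- an ideal generated by squarefree monomials -/
def IsSqfreeMonomialIdeal (I : Ideal (MvPolynomial (Fin n) K)) : Prop :=
  ∃ S : Set (Fin n →₀ ℕ), (∀ s ∈ S, ∀ i, s i ≤ 1) ∧
    I = Ideal.span ((fun s => monomial s (1 : K)) '' S)

end Defs

/-- exponents -/
def vv : Fin 6 → Fin 6 → ℕ := ![![1,0,0,0,1,0], ![1,0,0,0,0,1], ![0,1,1,0,1,0], ![0,1,1,0,0,1],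
  ![0,1,0,1,1,0], ![0,0,1,1,0,1]]

/-- exponents as finitely supported functions -/
noncomputable def v (j : Fin 6) : Fin 6 →₀ ℕ := Finsupp.equivFunOnFinite.symm (vv j)

lemma v_apply (j i : Fin 6) : v j i = vv j i := rfl

variable (K : Type) [Field K]

/-- the six generators -/
noncomputable def ff (j : Fin 6) : MvPolynomial (Fin 6) K := monomial (v j) 1

/-- binomial -/
noncomputable def q : Tg K 6 6 := X 0 * X 3 - X 1 * X 2

/-- the ideal -/
noncomputable def N : Ideal (Tg K 6 6) := L (ff K) ⊔ Ideal.span {q K}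

lemma X_eq (i : Fin 6) : (X i : MvPolynomial (Fin 6) K) = monomial (Finsupp.single i 1) 1 := rfl

lemma v0 : v 0 = Finsupp.single 0 1 + Finsupp.single 4 1 := by
  ext i; fin_cases i <;> simp [v_apply, vv]
lemma v1 : v 1 = Finsupp.single 0 1 + Finsupp.single 5 1 := by
  ext i; fin_cases i <;> simp [v_apply, vv]
lemma v2 : v 2 = Finsupp.single 1 1 + Finsupp.single 2 1 + Finsupp.single 4 1 := by
  ext i; fin_cases i <;> simp [v_apply, vv]
lemma v3 : v 3 = Finsupp.single 1 1 + Finsupp.single 2 1 + Finsupp.single 5 1 := by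
  ext i; fin_cases i <;> simp [v_apply, vv]
lemma v4 : v 4 = Finsupp.single 1 1 + Finsupp.single 3 1 + Finsupp.single 4 1 := by
  ext i; fin_cases i <;> simp [v_apply, vv]
lemma v5 : v 5 = Finsupp.single 2 1 + Finsupp.single 3 1 + Finsupp.single 5 1 := by
  ext i; fin_cases i <;> simp [v_apply, vv]

lemma mono2 (i j : Fin 6) : (monomial (Finsupp.single i 1 + Finsupp.single j 1) 1 : MvPolynomial (Fin 6) K) = X i * X j := by
  rw [X_eq, X_eq, monomial_mul, one_mul]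
lemma mono3 (i j k : Fin 6) : (monomial (Finsupp.single i 1 + Finsupp.single j 1 + Finsupp.single k 1) 1 : MvPolynomial (Fin 6) K) = X i * X j * X k := by
  rw [X_eq, X_eq, X_eq, monomial_mul, monomial_mul, one_mul, one_mul]

lemma f0 : ff K 0 = X 0 * X 4 := by unfold ff; rw [v0, mono2]
lemma f1 : ff K 1 = X 0 * X 5 := by unfold ff; rw [v1, mono2]
lemma f2 : ff K 2 = X 1 * X 2 * X 4 := by unfold ff; rw [v2, mono3]
lemma f3 : ff K 3 = X 1 * X 2 * X 5 := by unfold ff; rw [v3, mono3]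
lemma f4 : ff K 4 = X 1 * X 3 * X 4 := by unfold ff; rw [v4, mono3]
lemma f5 : ff K 5 = X 2 * X 3 * X 5 := by unfold ff; rw [v5, mono3]

lemma lin_mem (a : Fin 6 → MvPolynomial (Fin 6) K)
    (h : a 0 * (X 0 * X 4) + a 1 * (X 0 * X 5) + a 2 * (X 1 * X 2 * X 4) + a 3 * (X 1 * X 2 * X 5)
      + a 4 * (X 1 * X 3 * X 4) + a 5 * (X 2 * X 3 * X 5) = 0) :
    C (a 0) * X 0 + C (a 1) * X 1 + C (a 2) * X 2 + C (a 3) * X 3 + C (a 4) * X 4 + C (a 5) * X 5 ∈ L (ff K) := by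
  refine Ideal.subset_span ⟨a, ?_, ?_⟩
  · rw [Fin.sum_univ_six, f0, f1, f2, f3, f4, f5]; exact h
  · rw [Fin.sum_univ_six]

lemma R1 : (C (X 0) * X 2 - C (X 1) * C (X 2) * X 0 : Tg K 6 6) ∈ L (ff K) := by
  have := lin_mem K ![-(X 1 * X 2), 0, X 0, 0, 0, 0] (by simp; ring)
  simp only [Matrix.cons_val] at this
  convert this using 1
  simp; ring
lemma R2 : (C (X 0) * X 3 - C (X 1) * C (X 2) * X 1 : Tg K 6 6) ∈ L (ff K) := by
  have := lin_mem K ![0, -(X 1 * X 2), 0, X 0, 0, 0] (by simp; ring)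
  simp only [Matrix.cons_val] at this
  convert this using 1
  simp; ring
lemma R3 : (C (X 0) * X 4 - C (X 1) * C (X 3) * X 0 : Tg K 6 6) ∈ L (ff K) := by
  have := lin_mem K ![-(X 1 * X 3), 0, 0, 0, X 0, 0] (by simp; ring)
  simp only [Matrix.cons_val] at this
  convert this using 1
  simp; ring
lemma R4 : (C (X 0) * X 5 - C (X 2) * C (X 3) * X 1 : Tg K 6 6) ∈ L (ff K) := by
  have := lin_mem K ![0, -(X 2 * X 3), 0, 0, 0, X 0] (by simp; ring)
  simp only [Matrix.cons_val] at this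
  convert this using 1
  simp; ring
lemma R5 : (C (X 4) * X 1 - C (X 5) * X 0 : Tg K 6 6) ∈ L (ff K) := by
  have := lin_mem K ![-(X 5), X 4, 0, 0, 0, 0] (by simp; ring)
  simp only [Matrix.cons_val] at this
  convert this using 1
  simp; ring
lemma R6 : (C (X 4) * X 3 - C (X 5) * X 2 : Tg K 6 6) ∈ L (ff K) := by
  have := lin_mem K ![0, 0, -(X 5), X 4, 0, 0] (by simp; ring)
  simp only [Matrix.cons_val] at this
  convert this using 1
  simp; ring
lemma R7 : (C (X 2) * X 4 - C (X 3) * X 2 : Tg K 6 6) ∈ L (ff K) := by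
  have := lin_mem K ![0, 0, -(X 3), 0, X 2, 0] (by simp; ring)
  simp only [Matrix.cons_val] at this
  convert this using 1
  simp; ring
lemma R8 : (C (X 1) * X 5 - C (X 3) * X 3 : Tg K 6 6) ∈ L (ff K) := by
  have := lin_mem K ![0, 0, 0, -(X 3), 0, X 1] (by simp; ring)
  simp only [Matrix.cons_val] at this
  convert this using 1
  simp; ring



/-- the quotient -/
abbrev Aq : Type := Tg K 6 6 ⧸ N K

/-- image of a monomial in the quotient -/
noncomputable def monA (u α : Fin 6 →₀ ℕ) : Aq K :=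
  (∏ i, (Ideal.Quotient.mk (N K) (C (X i))) ^ (u i)) * ∏ j, (Ideal.Quotient.mk (N K) (X j)) ^ (α j)

lemma toQ {a b : Tg K 6 6} (h : a - b ∈ L (ff K)) :
    Ideal.Quotient.mk (N K) a = Ideal.Quotient.mk (N K) b := by
  rw [Ideal.Quotient.eq]; exact Ideal.mem_sup_left h

lemma toQ9 : Ideal.Quotient.mk (N K) (X 0 * X 3) = Ideal.Quotient.mk (N K) (X 1 * X 2) := by
  rw [Ideal.Quotient.eq]; exact Ideal.mem_sup_right (Ideal.subset_span rfl)

lemma connA (u α u' α' : Fin 6 →₀ ℕ) (h1 : u + ∑ j, α j • v j = u' + ∑ j, α' j • v j)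
    (h2 : ∑ j, α j = ∑ j, α' j) : monA K u α = monA K u' α' := by
  have e : ∀ i : Fin 6, u i + ∑ j, α j * vv j i = u' i + ∑ j, α' j * vv j i := by
    intro i
    have := DFunLike.congr_fun h1 i
    simpa [Finsupp.add_apply, Finsupp.finsetSum_apply, v_apply] using this
  have e0 := e 0
  have e1 := e 1
  have e2 := e 2
  have e3 := e 3
  have e4 := e 4
  have e5 := e 5
  simp only [Fin.sum_univ_six, vv, Matrix.cons_val] at e0 e1 e2 e3 e4 e5 h2
  have hS : Same (u 0) (u 1) (u 2) (u 3) (u 4) (u 5)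
    (α 0) (α 1) (α 2) (α 3) (α 4) (α 5) (u' 0) (u' 1) (u' 2) (u' 3) (u' 4) (u' 5)
    (α' 0) (α' 1) (α' 2) (α' 3) (α' 4) (α' 5) := by
    unfold Same; omega
  have r1 := toQ K (R1 K)
  have r2 := toQ K (R2 K)
  have r3 := toQ K (R3 K)
  have r4 := toQ K (R4 K)
  have r5 := toQ K (R5 K)
  have r6 := toQ K (R6 K)
  have r7 := toQ K (R7 K)
  have r8 := toQ K (R8 K)
  have r9 := toQ9 K
  rw [map_mul, map_mul, map_mul] at r1 r2 r3 r4
  rw [map_mul, map_mul] at r5 r6 r7 r8 r9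
  unfold monA
  rw [Fin.prod_univ_six, Fin.prod_univ_six, Fin.prod_univ_six, Fin.prod_univ_six]
  exact conn2 (Ideal.Quotient.mk (N K) (C (X 0))) (Ideal.Quotient.mk (N K) (C (X 1)))
    (Ideal.Quotient.mk (N K) (C (X 2))) (Ideal.Quotient.mk (N K) (C (X 3)))
    (Ideal.Quotient.mk (N K) (C (X 4))) (Ideal.Quotient.mk (N K) (C (X 5)))
    (Ideal.Quotient.mk (N K) (X 0)) (Ideal.Quotient.mk (N K) (X 1)) (Ideal.Quotient.mk (N K) (X 2))
    (Ideal.Quotient.mk (N K) (X 3)) (Ideal.Quotient.mk (N K) (X 4)) (Ideal.Quotient.mk (N K) (X 5))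
    r1 r2 r3 r4 r5 r6 r7 r8 r9 _ _ _ _ _ _ _ _ _ _ _ _ _ _ _ _ _ _ _ _ _ _ _ _ hS

open Classical in
/-- representative -/
noncomputable def nu (M : Fin 6 →₀ ℕ) (s : ℕ) : Aq K :=
  if h : ∃ p : (Fin 6 →₀ ℕ) × (Fin 6 →₀ ℕ), p.1 + ∑ j, p.2 j • v j = M ∧ ∑ j, p.2 j = s then
    monA K h.choose.1 h.choose.2 else 0

lemma nu_eq (u α : Fin 6 →₀ ℕ) : nu K (u + ∑ j, α j • v j) (∑ j, α j) = monA K u α := by
  unfold nu
  have h : ∃ p : (Fin 6 →₀ ℕ) × (Fin 6 →₀ ℕ), p.1 + ∑ j, p.2 j • v j = u + ∑ j, α j • v j ∧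
    ∑ j, p.2 j = ∑ j, α j := ⟨(u, α), rfl, rfl⟩
  rw [dif_pos h]
  exact connA K _ _ _ _ h.choose_spec.1 h.choose_spec.2

/-- section -/
noncomputable def sig : Polynomial (MvPolynomial (Fin 6) K) →ₗ[K] Aq K :=
  Polynomial.lsum (fun s => (basisMonomials (Fin 6) K).constr K (fun M => nu K M s))

lemma sig_mono (s : ℕ) (M : Fin 6 →₀ ℕ) (c : K) :
    sig K (Polynomial.monomial s (monomial M c)) = c • nu K M s := by
  unfold sig
  rw [Polynomial.lsum_apply, Polynomial.sum_monomial_index _ _ (by simp)]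
  have : (monomial M c : MvPolynomial (Fin 6) K) = c • (basisMonomials (Fin 6) K) M := by
    rw [coe_basisMonomials, smul_monomial, smul_eq_mul, mul_one]
  rw [this, map_smul, Module.Basis.constr_basis]

lemma prod_aux (s : Finset (Fin 6)) (α : Fin 6 →₀ ℕ) :
    ∏ j ∈ s, (Polynomial.C (ff K j) * Polynomial.X) ^ (α j) =
      Polynomial.monomial (∑ j ∈ s, α j) (monomial (∑ j ∈ s, α j • v j) (1 : K)) := by
  classical
  induction s using Finset.induction_on with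
  | empty => simp
  | insert a s ha ih =>
    rw [Finset.prod_insert ha, Finset.sum_insert ha, Finset.sum_insert ha, ih, mul_pow,
      ← Polynomial.C_pow, Polynomial.C_mul_X_pow_eq_monomial, Polynomial.monomial_mul_monomial]
    congr 1
    unfold ff
    rw [monomial_pow, one_pow, monomial_mul, one_mul]

lemma phi_mono (α u : Fin 6 →₀ ℕ) (c : K) :
    phi (ff K) (monomial α (monomial u c)) =
      Polynomial.monomial (∑ j, α j) (monomial (u + ∑ j, α j • v j) c) := by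
  unfold phi
  rw [aeval_monomial, Finsupp.prod_fintype _ _ (by simp), prod_aux]
  rw [Polynomial.algebraMap_apply, Algebra.algebraMap_self, RingHom.id_apply, Polynomial.C_mul_monomial,
    monomial_mul, mul_one]

lemma pi_mono (α u : Fin 6 →₀ ℕ) (c : K) :
    Ideal.Quotient.mk (N K) (monomial α (monomial u c)) = c • monA K u α := by
  have h1 : (monomial α (monomial u c) : Tg K 6 6) =
      C (C c) * ((∏ i, (C (X i)) ^ (u i)) * ∏ j, (X j) ^ (α j)) := by
    have e1 : (monomial u c : MvPolynomial (Fin 6) K) = C c * ∏ i, X i ^ (u i) := by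
      rw [monomial_eq, Finsupp.prod_fintype _ _ (by simp)]
    rw [monomial_eq, Finsupp.prod_fintype _ _ (by simp), e1]
    simp only [map_mul, map_prod, map_pow]
    ring
  rw [h1, map_mul, map_mul, map_prod, map_prod]
  simp only [map_pow]
  have h2 : c • monA K u α = algebraMap K (Aq K) c * monA K u α := Algebra.smul_def (R := K) (A := Aq K) c _
  rw [h2]
  rfl

lemma sig_phi (p : Tg K 6 6) : sig K (phi (ff K) p) = Ideal.Quotient.mk (N K) p := by
  induction p using MvPolynomial.induction_on' with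
  | monomial α r =>
    induction r using MvPolynomial.induction_on' with
    | monomial u c => rw [phi_mono, sig_mono, nu_eq, pi_mono]
    | add p q hp hq => rw [map_add, map_add, map_add, map_add, hp, hq]
  | add p q hp hq => rw [map_add, map_add, map_add, hp, hq]

lemma J_le_N : J (ff K) ≤ N K := by
  intro p hp
  have h : phi (ff K) p = 0 := hp
  rw [← Ideal.Quotient.eq_zero_iff_mem, ← sig_phi, h, map_zero]

lemma L_le_J (f : Fin 6 → MvPolynomial (Fin 6) K) : L f ≤ J f := by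
  unfold L
  rw [Ideal.span_le]
  rintro _ ⟨a, ha, rfl⟩
  change phi f _ = 0
  rw [map_sum]
  have : ∀ i, phi f (C (a i) * X i) = Polynomial.C (a i * f i) * Polynomial.X := by
    intro i
    rw [map_mul]
    unfold phi
    rw [aeval_X, aeval_C, Polynomial.algebraMap_apply, Algebra.algebraMap_self, RingHom.id_apply, map_mul, mul_assoc]
  simp only [this]
  rw [← Finset.sum_mul, ← map_sum, ha, map_zero, zero_mul]

lemma phi_incl (f : Fin 6 → MvPolynomial (Fin 6) K) (h : MvPolynomial (Fin 6) K) :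
    phi f (incl h) = phi' f h := by
  unfold phi phi' incl
  exact MvPolynomial.aeval_map_algebraMap _ _ _



lemma HT_le_J (f : Fin 6 → MvPolynomial (Fin 6) K) : HT f ≤ J f := by
  unfold HT
  rw [Ideal.map_le_iff_le_comap]
  intro h hh
  have h1 : phi' f h = 0 := hh
  change phi f (incl h) = 0
  rw [phi_incl, h1]

/-- the fiber relation -/
noncomputable def q0 : MvPolynomial (Fin 6) K := X 0 * X 3 - X 1 * X 2

lemma incl_q0 : incl (q0 K) = q K := by
  unfold incl q0 q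
  simp

lemma q0_mem : q0 K ∈ H (ff K) := by
  change phi' (ff K) (q0 K) = 0
  unfold phi' q0
  simp only [map_sub, map_mul, aeval_X]
  rw [f0, f1, f2, f3]
  simp only [map_mul]
  ring

lemma q_mem_HT : q K ∈ HT (ff K) := by
  rw [← incl_q0]
  exact Ideal.mem_map_of_mem _ (q0_mem K)

lemma fiberType : IsFiberType (ff K) := by
  refine le_antisymm ((J_le_N K).trans ?_) (sup_le (L_le_J K _) (HT_le_J K _))
  unfold N
  refine sup_le_sup_left ?_ _
  rw [Ideal.span_le]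
  rintro _ rfl
  exact q_mem_HT K

lemma e2q : C (X 3 ^ 2) * q K ∈ L (ff K) := by
  have h : C (X 3 ^ 2) * q K =
      -(C (X 3) * X 0) * (C (X 1) * X 5 - C (X 3) * X 3)
      - X 5 * (C (X 0) * X 4 - C (X 1) * C (X 3) * X 0)
      + X 4 * (C (X 0) * X 5 - C (X 2) * C (X 3) * X 1)
      + (C (X 3) * X 1) * (C (X 2) * X 4 - C (X 3) * X 2) := by
    unfold q
    rw [map_pow]
    ring
  rw [h]
  refine add_mem (add_mem (sub_mem ?_ ?_) ?_) ?_
  · exact Ideal.mul_mem_left _ _ (R8 K)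
  · exact Ideal.mul_mem_left _ _ (R3 K)
  · exact Ideal.mul_mem_left _ _ (R4 K)
  · exact Ideal.mul_mem_left _ _ (R7 K)

lemma e2_mem : (X 3 ^ 2 : MvPolynomial (Fin 6) K) ∈ conductor (ff K) := by
  intro p hp
  have h1 : p ∈ N K := J_le_N K hp
  unfold N at h1
  rw [Submodule.mem_sup] at h1
  obtain ⟨l, hl, r, hr, rfl⟩ := h1
  rw [Ideal.mem_span_singleton] at hr
  obtain ⟨t, rfl⟩ := hr
  rw [mul_add]
  refine add_mem (Ideal.mul_mem_left _ _ hl) ?_
  rw [← mul_assoc]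
  exact Ideal.mul_mem_right _ _ (e2q K)

/-- exponent `y_0 y_3` -/
noncomputable def b1 : Fin 6 →₀ ℕ := Finsupp.single 0 1 + Finsupp.single 3 1
/-- exponent `y_0 y_5` -/
noncomputable def b2 : Fin 6 →₀ ℕ := Finsupp.single 0 1 + Finsupp.single 5 1

/-- the functional -/
noncomputable def psi (p : Tg K 6 6) : K :=
  coeff (Finsupp.single 3 1) (coeff b1 p) + coeff (Finsupp.single 1 1) (coeff b2 p)

lemma psi_add (p r : Tg K 6 6) : psi K (p + r) = psi K p + psi K r := by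
  unfold psi; simp only [coeff_add]; ring

lemma psi_zero : psi K 0 = 0 := by unfold psi; simp

/-- coefficients of a syzygy -/
lemma syz (a : Fin 6 → MvPolynomial (Fin 6) K) (h : ∑ i, a i * ff K i = 0) (mm : Fin 6 → ℕ) :
    ∑ i, (if (∀ j, vv i j ≤ mm j) then
      coeff (Finsupp.equivFunOnFinite.symm (fun j => mm j - vv i j)) (a i) else 0) = 0 := by
  have := congrArg (coeff (Finsupp.equivFunOnFinite.symm mm)) h
  rw [coeff_sum, coeff_zero] at this
  refine Eq.trans (Finset.sum_congr rfl fun i _ => ?_) this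
  unfold ff
  rw [coeff_mul_monomial', mul_one]
  have h1 : v i ≤ Finsupp.equivFunOnFinite.symm mm ↔ ∀ j, vv i j ≤ mm j := Iff.rfl
  have h2 : Finsupp.equivFunOnFinite.symm mm - v i = Finsupp.equivFunOnFinite.symm (fun j => mm j - vv i j) := by
    ext j; rfl
  rw [h2]
  by_cases h3 : ∀ j, vv i j ≤ mm j
  · rw [if_pos h3, if_pos (h1.2 h3)]
  · rw [if_neg h3, if_neg (fun h => h3 (h1.1 h))]

lemma sg (i : Fin 6) (w : Fin 6 → ℕ) (h : ∀ j, w j = if i = j then 1 else 0) :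
    Finsupp.equivFunOnFinite.symm w = Finsupp.single i 1 := by
  ext j
  rw [Finsupp.single_apply]
  exact h j

lemma syz1 (a : Fin 6 → MvPolynomial (Fin 6) K) (h : ∑ i, a i * ff K i = 0) :
    coeff (Finsupp.single 3 1) (a 3) + coeff (Finsupp.single 1 1) (a 5) = 0 := by
  have := syz K a h ![0,1,1,1,0,1]
  rw [Fin.sum_univ_six, if_neg (by decide), if_neg (by decide), if_neg (by decide), if_pos (by decide),
    if_neg (by decide), if_pos (by decide), sg 3 _ (by decide), sg 1 _ (by decide)] at this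
  simpa using this

lemma syz2 (a : Fin 6 → MvPolynomial (Fin 6) K) (h : ∑ i, a i * ff K i = 0) :
    coeff (Finsupp.single 3 1) (a 0) = 0 := by
  have := syz K a h ![1,0,0,1,1,0]
  rw [Fin.sum_univ_six, if_pos (by decide), if_neg (by decide), if_neg (by decide), if_neg (by decide),
    if_neg (by decide), if_neg (by decide), sg 3 _ (by decide)] at this
  simpa using this

lemma syz3 (a : Fin 6 → MvPolynomial (Fin 6) K) (h : ∑ i, a i * ff K i = 0) :
    coeff (Finsupp.single 1 1) (a 0) = 0 := by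
  have := syz K a h ![1,1,0,0,1,0]
  rw [Fin.sum_univ_six, if_pos (by decide), if_neg (by decide), if_neg (by decide), if_neg (by decide),
    if_neg (by decide), if_neg (by decide), sg 1 _ (by decide)] at this
  simpa using this

lemma syz_mul (a : Fin 6 → MvPolynomial (Fin 6) K) (h : ∑ i, a i * ff K i = 0) (t : MvPolynomial (Fin 6) K) :
    ∑ i, (t * a i) * ff K i = 0 := by
  simp only [mul_assoc]
  rw [← Finset.mul_sum, h, mul_zero]

lemma b1s : b1.support = {0, 3} := by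
  ext j
  rw [Finsupp.mem_support_iff, b1, Finsupp.add_apply, Finsupp.single_apply, Finsupp.single_apply]
  revert j; decide
lemma b2s : b2.support = {0, 5} := by
  ext j
  rw [Finsupp.mem_support_iff, b2, Finsupp.add_apply, Finsupp.single_apply, Finsupp.single_apply]
  revert j; decide
lemma b10 : b1 - Finsupp.single 0 1 = Finsupp.single 3 1 := by unfold b1; rw [add_tsub_cancel_left]
lemma b13 : b1 - Finsupp.single 3 1 = Finsupp.single 0 1 := by unfold b1; rw [add_tsub_cancel_right]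
lemma b20 : b2 - Finsupp.single 0 1 = Finsupp.single 5 1 := by unfold b2; rw [add_tsub_cancel_left]
lemma b25 : b2 - Finsupp.single 5 1 = Finsupp.single 0 1 := by unfold b2; rw [add_tsub_cancel_right]

lemma cmc (M : Fin 6 →₀ ℕ) (t : Tg K 6 6) (r : MvPolynomial (Fin 6) K) :
    coeff M (t * C r) = coeff M t * r := by rw [mul_comm, coeff_C_mul, mul_comm]

lemma coeff_b1 (t : Tg K 6 6) (a : Fin 6 → MvPolynomial (Fin 6) K) :
    coeff b1 (t * ∑ i, C (a i) * X i) =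
      coeff (Finsupp.single 3 1) t * a 0 + coeff (Finsupp.single 0 1) t * a 3 := by
  rw [Finset.mul_sum, coeff_sum, Fin.sum_univ_six]
  simp only [← mul_assoc, coeff_mul_X', cmc, b1s]
  rw [if_pos (by decide), if_neg (by decide), if_neg (by decide), if_pos (by decide),
    if_neg (by decide), if_neg (by decide), b10, b13]
  ring

lemma coeff_b2 (t : Tg K 6 6) (a : Fin 6 → MvPolynomial (Fin 6) K) :
    coeff b2 (t * ∑ i, C (a i) * X i) =
      coeff (Finsupp.single 5 1) t * a 0 + coeff (Finsupp.single 0 1) t * a 5 := by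
  rw [Finset.mul_sum, coeff_sum, Fin.sum_univ_six]
  simp only [← mul_assoc, coeff_mul_X', cmc, b2s]
  rw [if_pos (by decide), if_neg (by decide), if_neg (by decide), if_neg (by decide),
    if_neg (by decide), if_pos (by decide), b20, b25]
  ring

lemma psi_gen (t : Tg K 6 6) (a : Fin 6 → MvPolynomial (Fin 6) K) (h : ∑ i, a i * ff K i = 0) :
    psi K (t * ∑ i, C (a i) * X i) = 0 := by
  unfold psi
  rw [coeff_b1, coeff_b2, coeff_add, coeff_add]
  have h1 := syz1 K _ (syz_mul K a h (coeff (Finsupp.single 0 1) t))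
  have h2 := syz2 K _ (syz_mul K a h (coeff (Finsupp.single 3 1) t))
  have h3 := syz3 K _ (syz_mul K a h (coeff (Finsupp.single 5 1) t))
  rw [h2, h3]
  linear_combination h1

lemma psi_L (p : Tg K 6 6) (hp : p ∈ L (ff K)) : ∀ t : Tg K 6 6, psi K (t * p) = 0 := by
  unfold L at hp
  induction hp using Submodule.span_induction with
  | mem x hx => obtain ⟨a, ha, rfl⟩ := hx; intro t; exact psi_gen K t a ha
  | zero => intro t; rw [mul_zero, psi_zero]
  | add x y _ _ hx hy => intro t; rw [mul_add, psi_add, hx, hy, add_zero]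
  | smul c x _ hx => intro t; rw [smul_eq_mul, ← mul_assoc]; exact hx _

lemma psi_q : psi K (C (X 3) * q K) = 1 := by
  unfold psi q
  rw [coeff_C_mul, coeff_C_mul, coeff_sub, coeff_sub, coeff_mul_X', coeff_mul_X', coeff_mul_X', coeff_mul_X', b1s, b2s,
    if_pos (by decide), if_neg (by decide), if_neg (by decide), if_neg (by decide), b13]
  rw [X_eq (K := K)]
  simp only [sub_zero, mul_zero, coeff_zero, add_zero]
  have : coeff (Finsupp.single 0 1) (X 0 : Tg K 6 6) = 1 := by rw [coeff_X, if_pos rfl]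
  rw [this, mul_one, coeff_monomial, if_pos rfl]

lemma q_mem_J : q K ∈ J (ff K) := HT_le_J K _ (q_mem_HT K)

lemma e_notMem : (X 3 : MvPolynomial (Fin 6) K) ∉ conductor (ff K) := by
  intro h
  have h1 : C (X 3) * q K ∈ L (ff K) := h (q K) (q_mem_J K)
  have h2 := psi_L K _ h1 1
  rw [one_mul, psi_q] at h2
  exact one_ne_zero h2

lemma not_sqfree : ¬ IsSqfreeMonomialIdeal (conductor (ff K)) := by
  rintro ⟨S, hS, hI⟩
  have h1 := e2_mem K
  have h2 := e_notMem K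
  rw [hI] at h1 h2
  have e : (X 3 ^ 2 : MvPolynomial (Fin 6) K) = monomial (Finsupp.single 3 2) 1 := by
    rw [X_pow_eq_monomial]
  rw [e, mem_ideal_span_monomial_image] at h1
  obtain ⟨s, hs, hle⟩ := h1 (Finsupp.single 3 2) (by
    rw [mem_support_iff, coeff_monomial, if_pos rfl]; exact one_ne_zero)
  apply h2
  rw [mem_ideal_span_monomial_image]
  intro M hM
  rw [X_eq, mem_support_iff, coeff_monomial] at hM
  have hM' : Finsupp.single 3 1 = M := by
    by_contra hne; rw [if_neg hne] at hM; exact hM rfl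
  refine ⟨s, hs, ?_⟩
  rw [← hM']
  intro i
  rw [Finsupp.single_apply]
  split_ifs with hi
  · exact hS s hs i
  · have := hle i
    rwa [Finsupp.single_apply, if_neg hi] at this

lemma vv_le : ∀ j i, vv j i ≤ 1 := by decide

lemma vv_min : ∀ i j, i ≠ j → ¬ ∀ k, vv i k ≤ vv j k := by decide

/-- For every field `K` there are six squarefree monomials `f_j = x^{v_j}` in six variables, none
dividing another, which generate an ideal of fiber type whose conductor contains `x_3^2` but not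
`x_3`; in particular the conductor is not generated by squarefree monomials. The monomials are
`x_0 x_4, x_0 x_5, x_1 x_2 x_4, x_1 x_2 x_5, x_1 x_3 x_4, x_2 x_3 x_5`. -/
theorem result (K : Type) [Field K] : ∃ v : Fin 6 → (Fin 6 →₀ ℕ), (∀ j i, v j i ≤ 1) ∧
    (∀ i j, i ≠ j → ¬ v i ≤ v j) ∧
    IsFiberType (fun j => monomial (v j) (1 : K)) ∧
    X 3 ^ 2 ∈ conductor (fun j => monomial (v j) (1 : K)) ∧
    X 3 ∉ conductor (fun j => monomial (v j) (1 : K)) ∧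
    ¬ IsSqfreeMonomialIdeal (conductor (fun j => monomial (v j) (1 : K))) :=
  ⟨v, vv_le, vv_min, fiberType K, e2_mem K, e_notMem K, not_sqfree K⟩

end Pool.Agent.Results.MP_75e24b_ag.Conductor
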